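import Pool.Agent.U776.WV.Hold

/-! Project WV, package COS. -/

open MeasureTheory Set Metric
open scoped ENNReal NNReal FourierTransform RealInnerProductSpace SchwartzMap

namespace Pool.Agent.U776.WV
open Pool.Agent.U562.WV

lemma intF (f : 𝓢(E 3, ℂ)) : Integrable (𝓕 (f : E 3 → ℂ)) := by
  have : (𝓕 (f : E 3 → ℂ)) = ((𝓕 f : 𝓢(E 3, ℂ)) : E 3 → ℂ) := by
    rw [SchwartzMap.fourier_coe]
  rw [this]
  exact (𝓕 f : 𝓢(E 3, ℂ)).integrable

lemma contF (f : 𝓢(E 3, ℂ)) : Continuous (𝓕 (f : E 3 → ℂ)) := by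
  have : (𝓕 (f : E 3 → ℂ)) = ((𝓕 f : 𝓢(E 3, ℂ)) : E 3 → ℂ) := by
    rw [SchwartzMap.fourier_coe]
  rw [this]
  exact (𝓕 f : 𝓢(E 3, ℂ)).continuous

/-- cosine piece with an arbitrary multiplier -/
noncomputable def cp (m : ℝ → E 3 → ℂ) (f : 𝓢(E 3, ℂ)) (τ t : ℝ) (x : E 3) : ℂ :=
  inv (fun ξ => ((Real.cos (2 * Real.pi * t * ‖ξ‖) : ℝ) : ℂ) * (m τ ξ * 𝓕 (f : E 3 → ℂ) ξ)) x

lemma cp_meas (m : ℝ → E 3 → ℂ) (hm : Continuous (Function.uncurry m)) (f : 𝓢(E 3, ℂ)) :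
    Measurable (fun z : ℝ × ℝ × E 3 => cp m f z.1 z.2.1 z.2.2) := by
  have hc : Continuous (fun w : (ℝ × ℝ × E 3) × E 3 =>
      Complex.exp (((2 * Real.pi * ⟪w.1.2.2, w.2⟫ : ℝ) : ℂ) * Complex.I) *
      (((Real.cos (2 * Real.pi * w.1.2.1 * ‖w.2‖) : ℝ) : ℂ) * (m w.1.1 w.2 * 𝓕 (f : E 3 → ℂ) w.2))) := by
    have h1 : Continuous (fun w : (ℝ × ℝ × E 3) × E 3 => m w.1.1 w.2) :=
      hm.comp (by fun_prop : Continuous fun w : (ℝ × ℝ × E 3) × E 3 => (w.1.1, w.2))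
    have h2 : Continuous (fun w : (ℝ × ℝ × E 3) × E 3 => 𝓕 (f : E 3 → ℂ) w.2) :=
      (contF f).comp (by fun_prop)
    have h3 : Continuous (fun w : (ℝ × ℝ × E 3) × E 3 => (⟪w.1.2.2, w.2⟫ : ℝ)) :=
      Continuous.inner (by fun_prop) (by fun_prop)
    fun_prop
  have := (hc.stronglyMeasurable).integral_prod_right' (ν := (volume : Measure (E 3)))
  exact this.measurable

/-- Tonelli -/
lemma ton (S : Set ℝ) (W : ℝ → ℝ≥0∞) (hW : Measurable W) (H : ℝ → ℝ → E 3 → ℝ≥0∞)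
    (hH : Measurable (fun z : ℝ × ℝ × E 3 => H z.1 z.2.1 z.2.2)) :
    ∫⁻ t in S, (∫⁻ x, ∫⁻ τ in Ioi (0 : ℝ), W τ * H τ t x) =
      ∫⁻ τ in Ioi (0 : ℝ), W τ * ∫⁻ t in S, ∫⁻ x, H τ t x := by
  have h1 : ∀ t, (∫⁻ x, ∫⁻ τ in Ioi (0 : ℝ), W τ * H τ t x) =
      ∫⁻ τ in Ioi (0 : ℝ), ∫⁻ x, W τ * H τ t x := by
    intro t
    apply lintegral_lintegral_swap
    apply Measurable.aemeasurable
    refine (hW.comp measurable_snd).mul ?_
    exact hH.comp (measurable_snd.prodMk (measurable_const.prodMk measurable_fst))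
  simp_rw [h1]
  have hH2 : ∀ τ t, Measurable (fun x => H τ t x) := fun τ t =>
    hH.comp (measurable_const.prodMk (measurable_const.prodMk measurable_id))
  have hM : Measurable (fun z : ℝ × ℝ => ∫⁻ x, H z.1 z.2 x) := by
    have : Measurable (fun w : (ℝ × ℝ) × E 3 => H w.1.1 w.1.2 w.2) :=
      hH.comp ((measurable_fst.comp measurable_fst).prodMk
        ((measurable_snd.comp measurable_fst).prodMk measurable_snd))
    exact this.lintegral_prod_right'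
  have h2 : ∀ τ t, ∫⁻ x, W τ * H τ t x = W τ * ∫⁻ x, H τ t x := fun τ t =>
    lintegral_const_mul _ (hH2 τ t)
  simp_rw [h2]
  rw [lintegral_lintegral_swap]
  · refine lintegral_congr fun τ => ?_
    rw [lintegral_const_mul]
    exact hM.comp (measurable_const.prodMk measurable_id)
  · apply Measurable.aemeasurable
    exact (hW.comp measurable_snd).mul (hM.comp (measurable_snd.prodMk measurable_fst))

/-- the final integral in the subordination parameter -/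
lemma fin {b q : ℝ} (hq : 0 ≤ q) (hb : -1 < b) (hb' : -1 < b - q / 2) :
    ∫⁻ τ in Ioi (0 : ℝ), ENNReal.ofReal (τ ^ b * Real.exp (-τ)) *
      ENNReal.ofReal ((1 + 2 / Real.sqrt τ) ^ q) < ∞ := by
  have hI : IntegrableOn (fun τ : ℝ => 2 ^ q * (τ ^ b * Real.exp (-τ)) +
      (2 ^ q * 2 ^ q) * (τ ^ (b - q / 2) * Real.exp (-τ))) (Ioi 0) :=
    ((gam_int hb).const_mul _).add ((gam_int hb').const_mul _)
  refine lt_of_le_of_lt ?_ (hI.lintegral_lt_top)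
  refine setLIntegral_mono' measurableSet_Ioi fun τ hτ => ?_
  have hτ' : (0 : ℝ) < τ := hτ
  rw [← ENNReal.ofReal_mul (by positivity)]
  apply ENNReal.ofReal_le_ofReal
  have hx : (0 : ℝ) ≤ 2 / Real.sqrt τ := by positivity
  have hbd : (1 + 2 / Real.sqrt τ) ^ q ≤ 2 ^ q + 2 ^ q * (2 / Real.sqrt τ) ^ q := by
    rcases le_total (2 / Real.sqrt τ) 1 with h | h
    · calc (1 + 2 / Real.sqrt τ) ^ q ≤ 2 ^ q :=
            Real.rpow_le_rpow (by linarith) (by linarith) hq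
        _ ≤ _ := by
            have : 0 ≤ 2 ^ q * (2 / Real.sqrt τ) ^ q := by positivity
            linarith
    · calc (1 + 2 / Real.sqrt τ) ^ q ≤ (2 * (2 / Real.sqrt τ)) ^ q :=
            Real.rpow_le_rpow (by linarith) (by linarith) hq
        _ = 2 ^ q * (2 / Real.sqrt τ) ^ q := Real.mul_rpow (by norm_num) hx
        _ ≤ _ := by
            have : (0 : ℝ) ≤ 2 ^ q := by positivity
            linarith
  have h2 : (2 / Real.sqrt τ) ^ q = 2 ^ q * τ ^ (-(q / 2)) := by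
    rw [Real.div_rpow (by norm_num) (Real.sqrt_nonneg _), Real.sqrt_eq_rpow, ← Real.rpow_mul hτ'.le,
      Real.rpow_neg hτ'.le, div_eq_mul_inv]
    congr 3; ring
  rw [h2] at hbd
  calc τ ^ b * Real.exp (-τ) * (1 + 2 / Real.sqrt τ) ^ q
      ≤ τ ^ b * Real.exp (-τ) * (2 ^ q + 2 ^ q * (2 ^ q * τ ^ (-(q / 2)))) :=
        mul_le_mul_of_nonneg_left hbd (by positivity)
    _ = _ := by
        rw [sub_eq_add_neg, Real.rpow_add hτ']; ring

/-- pointwise estimate -/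
lemma ptw {s : ℝ} (hs : 0 < s) (f : 𝓢(E 3, ℂ)) (t : ℝ) (x : E 3) :
    ENNReal.ofReal (Real.Gamma (s / 2) * (1 - 2 ^ (-(s / 2)))) * ‖wave s f 0 t x‖ₑ ≤
    (∫⁻ τ in Ioi (0 : ℝ), ENNReal.ofReal (τ ^ (s / 2 - 1) * Real.exp (-τ)) *
        ‖cp (fun τ ξ => ht τ ξ - ht (2 * τ) ξ) f τ t x‖ₑ) +
      ∫⁻ τ in Ioi (0 : ℝ), ENNReal.ofReal (τ ^ (s / 2) * Real.exp (-τ)) *
        ‖cp (fun τ ξ => ht (2 * τ) ξ) f τ t x‖ₑ := by
  let Φ : E 3 → ℂ := fun ξ => Complex.exp (((2 * Real.pi * ⟪x, ξ⟫ : ℝ) : ℂ) * Complex.I) *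
    (((Real.cos (2 * Real.pi * t * ‖ξ‖) : ℝ) : ℂ) * 𝓕 (f : E 3 → ℂ) ξ)
  have hΦ : Integrable Φ := by
    have hc : Continuous (fun ξ : E 3 => Complex.exp (((2 * Real.pi * ⟪x, ξ⟫ : ℝ) : ℂ) * Complex.I) *
      ((Real.cos (2 * Real.pi * t * ‖ξ‖) : ℝ) : ℂ)) := by fun_prop
    have := (intF f).bdd_mul (c := 1) hc.aestronglyMeasurable (by
      filter_upwards with ξ
      rw [norm_mul, Complex.norm_exp_ofReal_mul_I, one_mul, Complex.norm_real, Real.norm_eq_abs]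
      exact Real.abs_cos_le_one _)
    refine this.congr (Filter.Eventually.of_forall fun ξ => ?_)
    simp only [Φ]; ring
  have hr := rep Φ hΦ (half_pos hs)
  have hw : wave s f 0 t x = ∫ ξ, (((1 + lam ξ) ^ (-(s / 2)) : ℝ) : ℂ) * Φ ξ := by
    unfold wave inv
    refine integral_congr_ae (Filter.Eventually.of_forall fun ξ => ?_)
    have h0 : 𝓕 ((0 : 𝓢(E 3, ℂ)) : E 3 → ℂ) ξ = 0 := by simp [Real.fourier_eq]
    simp only [h0, mul_zero, add_zero, Φ, lam, neg_div]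
    push_cast
    ring
  rw [← hw] at hr
  have hcp1 : ∀ τ, ∫ ξ, (ht τ ξ - ht (2 * τ) ξ) * Φ ξ =
      cp (fun τ ξ => ht τ ξ - ht (2 * τ) ξ) f τ t x := by
    intro τ
    unfold cp inv
    refine integral_congr_ae (Filter.Eventually.of_forall fun ξ => ?_)
    simp only [Φ]; ring
  have hcp2 : ∀ τ, ∫ ξ, ht (2 * τ) ξ * Φ ξ = cp (fun τ ξ => ht (2 * τ) ξ) f τ t x := by
    intro τ
    unfold cp inv
    refine integral_congr_ae (Filter.Eventually.of_forall fun ξ => ?_)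
    simp only [Φ]; ring
  simp only [hcp1, hcp2] at hr
  have hc0 : 0 ≤ Real.Gamma (s / 2) * (1 - 2 ^ (-(s / 2))) := by
    have h1 := Real.Gamma_pos_of_pos (half_pos hs)
    have h2 : (2 : ℝ) ^ (-(s / 2)) ≤ 1 := Real.rpow_le_one_of_one_le_of_nonpos (by norm_num) (by linarith)
    exact mul_nonneg h1.le (by linarith)
  have hl : ENNReal.ofReal (Real.Gamma (s / 2) * (1 - 2 ^ (-(s / 2)))) * ‖wave s f 0 t x‖ₑ =
      ‖((Real.Gamma (s / 2) * (1 - 2 ^ (-(s / 2))) : ℝ) : ℂ) * wave s f 0 t x‖ₑ := by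
    rw [enorm_mul]
    congr 1
    rw [← ofReal_norm, Complex.norm_real, Real.norm_eq_abs, abs_of_nonneg hc0]
  rw [hl, hr]
  refine (enorm_integral_le_lintegral_enorm _).trans ?_
  have hm1 : Measurable (fun τ : ℝ => ENNReal.ofReal (τ ^ (s / 2 - 1) * Real.exp (-τ)) *
        ‖cp (fun τ ξ => ht τ ξ - ht (2 * τ) ξ) f τ t x‖ₑ) := by
    have h1 : Measurable (fun τ : ℝ => ENNReal.ofReal (τ ^ (s / 2 - 1) * Real.exp (-τ))) := by fun_prop
    have h2 := (cp_meas (fun τ ξ => ht τ ξ - ht (2 * τ) ξ) (by unfold ht; fun_prop) f).comp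
      (measurable_id.prodMk (measurable_const (a := (t, x))))
    exact h1.mul h2.enorm
  rw [← lintegral_add_left hm1]
  refine setLIntegral_mono' measurableSet_Ioi fun τ hτ => ?_
  have hτ' : (0 : ℝ) < τ := hτ
  rw [enorm_mul]
  refine (mul_le_mul_right (enorm_add_le _ _) _).trans ?_
  have hn : ∀ r : ℝ, 0 ≤ r → ‖(r : ℂ)‖ₑ = ENNReal.ofReal r := fun r hr => by
    rw [← ofReal_norm, Complex.norm_real, Real.norm_eq_abs, abs_of_nonneg hr]
  have hE : Real.exp (-(2 * τ)) ≤ Real.exp (-τ) := Real.exp_le_exp.2 (by linarith)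
  rw [enorm_mul, enorm_mul, hn (τ ^ (s / 2 - 1)) (by positivity), hn (Real.exp (-τ)) (by positivity),
    hn (Real.exp (-τ) - Real.exp (-(2 * τ))) (by linarith), mul_add, ← mul_assoc, ← mul_assoc,
    ← ENNReal.ofReal_mul (by positivity), ← ENNReal.ofReal_mul (by positivity)]
  refine add_le_add le_rfl (mul_le_mul_left (ENNReal.ofReal_le_ofReal ?_) _)
  have h3 : Real.exp (-τ) - Real.exp (-(2 * τ)) ≤ τ * Real.exp (-τ) := by
    have h4 : Real.exp (-(2 * τ)) = Real.exp (-τ) * Real.exp (-τ) := by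
      rw [← Real.exp_add]; congr 1; ring
    have h5 := Real.add_one_le_exp (-τ)
    rw [h4]
    nlinarith [Real.exp_pos (-τ)]
  calc τ ^ (s / 2 - 1) * (Real.exp (-τ) - Real.exp (-(2 * τ)))
      ≤ τ ^ (s / 2 - 1) * (τ * Real.exp (-τ)) := mul_le_mul_of_nonneg_left h3 (by positivity)
    _ = τ ^ (s / 2) * Real.exp (-τ) := by
        rw [← mul_assoc, Real.rpow_sub_one hτ'.ne', div_mul_cancel₀ _ hτ'.ne']

lemma meas2 (W : ℝ → ℝ≥0∞) (hW : Measurable W) (H : ℝ → ℝ → E 3 → ℝ≥0∞)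
    (hH : Measurable (fun z : ℝ × ℝ × E 3 => H z.1 z.2.1 z.2.2)) :
    Measurable (fun z : ℝ × E 3 => ∫⁻ τ in Ioi (0 : ℝ), W τ * H τ z.1 z.2) := by
  have h1 : Measurable (fun w : (ℝ × E 3) × ℝ => (w.2, w.1.1, w.1.2)) := by fun_prop
  have h2 : Measurable (fun w : (ℝ × E 3) × ℝ => H w.2 w.1.1 w.1.2) := hH.comp h1
  have : Measurable (fun w : (ℝ × E 3) × ℝ => W w.2 * H w.2 w.1.1 w.1.2) :=
    (hW.comp measurable_snd).mul h2
  exact this.lintegral_prod_right'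

/-- the estimate for two superpositions -/
lemma total (S : Set ℝ) (c k K : ℝ≥0∞) (hc : c ≠ ∞) (hk : k ≠ ∞) (hK : K ≠ ∞)
    (V : ℝ → E 3 → ℝ≥0∞) (W1 W2 : ℝ → ℝ≥0∞) (mW1 : Measurable W1) (mW2 : Measurable W2)
    (P L : ℝ → ℝ → E 3 → ℝ≥0∞)
    (mP : Measurable (fun z : ℝ × ℝ × E 3 => P z.1 z.2.1 z.2.2))
    (mL : Measurable (fun z : ℝ × ℝ × E 3 => L z.1 z.2.1 z.2.2))
    (key : ∀ t x, c * V t x ≤ k * (K * (∫⁻ τ in Ioi (0 : ℝ), W1 τ * P τ t x) +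
        K * ∫⁻ τ in Ioi (0 : ℝ), W2 τ * L τ t x)) :
    c * (∫⁻ t in S, ∫⁻ x, V t x) ≤
      k * (K * (∫⁻ τ in Ioi (0 : ℝ), W1 τ * ∫⁻ t in S, ∫⁻ x, P τ t x) +
        K * ∫⁻ τ in Ioi (0 : ℝ), W2 τ * ∫⁻ t in S, ∫⁻ x, L τ t x) := by
  have mA := meas2 W1 mW1 P mP
  calc c * (∫⁻ t in S, ∫⁻ x, V t x)
      = ∫⁻ t in S, ∫⁻ x, c * V t x := by
        rw [← lintegral_const_mul' _ _ hc]
        refine lintegral_congr fun t => ?_
        rw [← lintegral_const_mul' _ _ hc]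
    _ ≤ ∫⁻ t in S, ∫⁻ x, k * (K * (∫⁻ τ in Ioi (0 : ℝ), W1 τ * P τ t x) +
        K * ∫⁻ τ in Ioi (0 : ℝ), W2 τ * L τ t x) :=
          lintegral_mono fun t => lintegral_mono fun x => key t x
    _ = k * (K * (∫⁻ t in S, ∫⁻ x, ∫⁻ τ in Ioi (0 : ℝ), W1 τ * P τ t x) +
        K * ∫⁻ t in S, ∫⁻ x, ∫⁻ τ in Ioi (0 : ℝ), W2 τ * L τ t x) := by
          have q1 : ∀ t, ∫⁻ x, k * (K * (∫⁻ τ in Ioi (0 : ℝ), W1 τ * P τ t x) +
              K * ∫⁻ τ in Ioi (0 : ℝ), W2 τ * L τ t x) = k *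
              (K * (∫⁻ x, ∫⁻ τ in Ioi (0 : ℝ), W1 τ * P τ t x) +
              K * ∫⁻ x, ∫⁻ τ in Ioi (0 : ℝ), W2 τ * L τ t x) := by
            intro t
            have m1 : Measurable fun x : E 3 => K * ∫⁻ τ in Ioi (0 : ℝ), W1 τ * P τ t x :=
              (mA.comp (measurable_const.prodMk measurable_id)).const_mul _
            rw [lintegral_const_mul' _ _ hk, lintegral_add_left m1, lintegral_const_mul' _ _ hK,
              lintegral_const_mul' _ _ hK]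
          have m2 : Measurable fun t : ℝ => K * ∫⁻ x, ∫⁻ τ in Ioi (0 : ℝ), W1 τ * P τ t x :=
            (mA.lintegral_prod_right').const_mul _
          simp_rw [q1]
          rw [lintegral_const_mul' _ _ hk, lintegral_add_left m2, lintegral_const_mul' _ _ hK,
              lintegral_const_mul' _ _ hK]
    _ = _ := by
          rw [ton S W1 mW1 P mP, ton S W2 mW2 L mL]

theorem t_COS : S_PCS → S_COS := by
  intro hP A p s hA hp hs
  have hp0 : 0 < p := by linarith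
  have hs0 : 0 < s := by
    have : 3 / p ≤ 1 := by rw [div_le_one hp0]; exact hp
    linarith
  have hε0 : 0 < p * s - p + 3 := by
    have h1 := mul_lt_mul_of_pos_left hs hp0
    have h2 : p * (1 - 3 / p) = p - 3 := by field_simp
    linarith
  set ε : ℝ := min (p * s - p + 3) 1 with hε
  have hεp : 0 < ε := lt_min hε0 one_pos
  have hε1 : ε ≤ 1 := min_le_right _ _
  have hε2 : ε ≤ p * s - p + 3 := min_le_left _ _
  set a : ℝ := 1 - ε / 2 with ha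
  set η : ℝ := ε / (8 * p) with hη
  have hη0 : 0 < η := by positivity
  have hη1 : (p - 1) * η ≤ ε / 8 := by
    rw [hη, mul_div_assoc', div_le_div_iff₀ (by positivity) (by norm_num)]
    nlinarith
  have hps : 0 < p * s := by positivity
  obtain ⟨C, hC, hPC⟩ := hP A p a hA hp (by linarith) (by linarith)
  set c : ℝ := Real.Gamma (s / 2) * (1 - 2 ^ (-(s / 2))) with hc
  have hc0 : 0 < c := by
    have h1 := Real.Gamma_pos_of_pos (half_pos hs0)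
    have h2 : (2 : ℝ) ^ (-(s / 2)) < 1 :=
      Real.rpow_lt_one_of_one_lt_of_neg (by norm_num) (by linarith)
    exact mul_pos h1 (by linarith)
  set e1 : ℝ := p * ((s / 2 - 1) + 1) - 1 - (p - 1) * η with he1
  set e2 : ℝ := p * (s / 2 + 1) - 1 - (p - 1) * η with he2
  set Kη : ℝ≥0∞ := ENNReal.ofReal (Real.Gamma η) ^ (p - 1) with hKη
  have hKη' : Kη < ∞ := ENNReal.rpow_lt_top_of_nonneg (by linarith) ENNReal.ofReal_ne_top
  set I1 : ℝ≥0∞ := ∫⁻ τ in Ioi (0 : ℝ), ENNReal.ofReal (τ ^ (e1 + a / 2) * Real.exp (-τ)) *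
      ENNReal.ofReal ((1 + 2 / Real.sqrt τ) ^ (p - 2)) with hI1
  have hI1' : I1 < ∞ := fin (by linarith) (by rw [he1]; nlinarith) (by rw [he1]; nlinarith)
  set I2 : ℝ≥0∞ := ∫⁻ τ in Ioi (0 : ℝ), ENNReal.ofReal (τ ^ e2 * Real.exp (-τ)) *
      ENNReal.ofReal ((1 + 2 / Real.sqrt τ) ^ p) with hI2
  have hI2' : I2 < ∞ := fin hp0.le (by rw [he2]; nlinarith) (by rw [he2]; nlinarith)
  set M : ℝ≥0∞ := (ENNReal.ofReal c ^ p)⁻¹ * (2 ^ (p - 1) * (Kη * (ENNReal.ofReal (3 * C) * I1) +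
    Kη * (ENNReal.ofReal (2 * C) * I2))) with hM
  have hcp : ENNReal.ofReal c ^ p ≠ 0 := by
    rw [ENNReal.ofReal_rpow_of_pos hc0]
    exact (ENNReal.ofReal_pos.2 (Real.rpow_pos_of_pos hc0 _)).ne'
  have hcp' : ENNReal.ofReal c ^ p ≠ ∞ := by
    rw [ENNReal.ofReal_rpow_of_pos hc0]
    exact ENNReal.ofReal_ne_top
  have hM' : M < ∞ := by
    refine ENNReal.mul_lt_top (ENNReal.inv_lt_top.2 (pos_iff_ne_zero.2 hcp)) ?_
    refine ENNReal.mul_lt_top (ENNReal.rpow_lt_top_of_nonneg (by linarith) (by norm_num)) ?_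
    exact ENNReal.add_lt_top.2 ⟨ENNReal.mul_lt_top hKη' (ENNReal.mul_lt_top ENNReal.ofReal_lt_top hI1'),
      ENNReal.mul_lt_top hKη' (ENNReal.mul_lt_top ENNReal.ofReal_lt_top hI2')⟩
  refine ⟨M.toReal + 1, by positivity, fun K hK f => ?_⟩
  -- abbreviations
  let P : ℝ → ℝ → E 3 → ℝ≥0∞ := fun τ t x =>
    ‖cp (fun τ ξ => ht τ ξ - ht (2 * τ) ξ) f τ t x‖ₑ ^ p
  let L : ℝ → ℝ → E 3 → ℝ≥0∞ := fun τ t x => ‖cp (fun τ ξ => ht (2 * τ) ξ) f τ t x‖ₑ ^ p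
  have mP0 := cp_meas (fun τ ξ => ht τ ξ - ht (2 * τ) ξ) (by unfold ht; fun_prop) f
  have mL0 := cp_meas (fun τ ξ => ht (2 * τ) ξ) (by unfold ht; fun_prop) f
  have mP : Measurable (fun z : ℝ × ℝ × E 3 => P z.1 z.2.1 z.2.2) := mP0.enorm.pow_const p
  have mL : Measurable (fun z : ℝ × ℝ × E 3 => L z.1 z.2.1 z.2.2) := mL0.enorm.pow_const p
  let W1 : ℝ → ℝ≥0∞ := fun τ => ENNReal.ofReal (τ ^ e1 * Real.exp (-τ))
  let W2 : ℝ → ℝ≥0∞ := fun τ => ENNReal.ofReal (τ ^ e2 * Real.exp (-τ))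
  have mW1 : Measurable W1 := by fun_prop
  have mW2 : Measurable W2 := by fun_prop
  -- pointwise
  have key : ∀ t x, ENNReal.ofReal c ^ p * ‖wave s f 0 t x‖ₑ ^ p ≤
      2 ^ (p - 1) * (Kη * (∫⁻ τ in Ioi (0 : ℝ), W1 τ * P τ t x) +
        Kη * ∫⁻ τ in Ioi (0 : ℝ), W2 τ * L τ t x) := by
    intro t x
    rw [← ENNReal.mul_rpow_of_nonneg _ _ hp0.le]
    refine (ENNReal.rpow_le_rpow (ptw hs0 f t x) hp0.le).trans ?_
    refine (ENNReal.rpow_add_le_mul_rpow_add_rpow _ _ (by linarith)).trans ?_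
    refine mul_le_mul_right (add_le_add ?_ ?_) _
    · refine hold (by linarith) hη0 _ ?_
      exact ((mP0.comp (measurable_id.prodMk (measurable_const (a := (t, x))))).enorm).aemeasurable
    · refine hold (by linarith) hη0 _ ?_
      exact ((mL0.comp (measurable_id.prodMk (measurable_const (a := (t, x))))).enorm).aemeasurable
  have b1 : ∀ τ ∈ Ioi (0 : ℝ), W1 τ * (∫⁻ t in Ioc (0 : ℝ) 2, ∫⁻ x, P τ t x) ≤
      (ENNReal.ofReal (3 * C) * Nm K p f) * (ENNReal.ofReal (τ ^ (e1 + a / 2) * Real.exp (-τ)) *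
      ENNReal.ofReal ((1 + 2 / Real.sqrt τ) ^ (p - 2))) := by
    intro τ hτ
    have hτ' : (0 : ℝ) < τ := hτ
    have h := (hPC K hK f (Real.sqrt τ) 2 (Real.sqrt_pos.2 hτ') two_pos τ (2 * τ)
      (by rw [Real.sq_sqrt hτ'.le]; linarith) (by rw [Real.sq_sqrt hτ'.le]; linarith)
      (by rw [Real.sq_sqrt hτ'.le]; linarith) (by rw [Real.sq_sqrt hτ'.le]; linarith)).1
    refine (mul_le_mul_right h _).trans (le_of_eq ?_)
    rw [← mul_assoc, mul_comm (ENNReal.ofReal (3 * C)) (Nm K p f), mul_assoc (Nm K p f),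
      ← ENNReal.ofReal_mul (by positivity), ← ENNReal.ofReal_mul (by positivity), mul_comm (Nm K p f),
      ← ENNReal.ofReal_mul (by positivity)]
    congr 2
    have h5 : Real.sqrt τ ^ a = τ ^ (a / 2) := by
      rw [Real.sqrt_eq_rpow, ← Real.rpow_mul hτ'.le]; congr 1; ring
    rw [h5, Real.rpow_add hτ']
    ring
  have b2 : ∀ τ ∈ Ioi (0 : ℝ), W2 τ * (∫⁻ t in Ioc (0 : ℝ) 2, ∫⁻ x, L τ t x) ≤
      (ENNReal.ofReal (2 * C) * Nm K p f) * (ENNReal.ofReal (τ ^ e2 * Real.exp (-τ)) *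
      ENNReal.ofReal ((1 + 2 / Real.sqrt τ) ^ p)) := by
    intro τ hτ
    have hτ' : (0 : ℝ) < τ := hτ
    have h := (hPC K hK f (Real.sqrt τ) 2 (Real.sqrt_pos.2 hτ') two_pos (2 * τ) (2 * τ)
      (by rw [Real.sq_sqrt hτ'.le]; linarith) (by rw [Real.sq_sqrt hτ'.le]; linarith)
      (by rw [Real.sq_sqrt hτ'.le]; linarith) (by rw [Real.sq_sqrt hτ'.le]; linarith)).2
    refine (mul_le_mul_right h _).trans (le_of_eq ?_)
    rw [← mul_assoc, mul_comm (ENNReal.ofReal (2 * C)) (Nm K p f), mul_assoc (Nm K p f),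
      ← ENNReal.ofReal_mul (by positivity), ← ENNReal.ofReal_mul (by positivity), mul_comm (Nm K p f),
      ← ENNReal.ofReal_mul (by positivity)]
    congr 2
    ring
  have tot : ENNReal.ofReal c ^ p * (∫⁻ t in Ioc (0 : ℝ) 2, ∫⁻ x, ‖wave s f 0 t x‖ₑ ^ p) ≤
      2 ^ (p - 1) * (Kη * ((ENNReal.ofReal (3 * C) * Nm K p f) * I1) +
        Kη * ((ENNReal.ofReal (2 * C) * Nm K p f) * I2)) := by
    refine (total _ _ _ _ hcp' (ENNReal.rpow_lt_top_of_nonneg (by linarith) (by norm_num)).ne hKη'.ne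
      _ W1 W2 mW1 mW2 P L mP mL key).trans ?_
    refine mul_le_mul_right (add_le_add (mul_le_mul_right ?_ _) (mul_le_mul_right ?_ _)) _
    · refine (setLIntegral_mono' measurableSet_Ioi b1).trans (le_of_eq ?_)
      rw [lintegral_const_mul]
      fun_prop
    · refine (setLIntegral_mono' measurableSet_Ioi b2).trans (le_of_eq ?_)
      rw [lintegral_const_mul]
      fun_prop
  rw [← restrict_Ioc_eq_restrict_Icc]
  have hfin : (∫⁻ t in Ioc (0 : ℝ) 2, ∫⁻ x, ‖wave s f 0 t x‖ₑ ^ p) ≤ M * Nm K p f := by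
    have h1 : (∫⁻ t in Ioc (0 : ℝ) 2, ∫⁻ x, ‖wave s f 0 t x‖ₑ ^ p) =
        (ENNReal.ofReal c ^ p)⁻¹ * (ENNReal.ofReal c ^ p *
          (∫⁻ t in Ioc (0 : ℝ) 2, ∫⁻ x, ‖wave s f 0 t x‖ₑ ^ p)) := by
      rw [← mul_assoc, ENNReal.inv_mul_cancel hcp hcp', one_mul]
    rw [h1]
    refine (mul_le_mul_right tot _).trans (le_of_eq ?_)
    rw [hM]
    ring
  refine hfin.trans (mul_le_mul_left ?_ _)
  calc M = ENNReal.ofReal M.toReal := (ENNReal.ofReal_toReal hM'.ne).symm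
    _ ≤ _ := ENNReal.ofReal_le_ofReal (by linarith)

end Pool.Agent.U776.WV
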