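import Pool.Agent.U776.WV.Rep

/-! Project WV, package COS: Hölder's inequality in the subordination parameter. -/

open MeasureTheory Set Metric
open scoped ENNReal NNReal FourierTransform RealInnerProductSpace SchwartzMap

namespace Pool.Agent.U776.WV
open Pool.Agent.U562.WV

lemma gam_int {a : ℝ} (ha : -1 < a) :
    IntegrableOn (fun τ : ℝ => τ ^ a * Real.exp (-τ)) (Ioi 0) := by
  have := int_exp (al := a + 1) (r := 1) (by linarith) one_pos
  simp only [one_mul, add_sub_cancel_right] at this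
  exact this

lemma gam_lint {a : ℝ} (ha : -1 < a) :
    ∫⁻ τ in Ioi (0 : ℝ), ENNReal.ofReal (τ ^ a * Real.exp (-τ)) = ENNReal.ofReal (Real.Gamma (a + 1)) := by
  rw [← ofReal_integral_eq_lintegral_ofReal (gam_int ha)]
  · have := Real.integral_rpow_mul_exp_neg_mul_Ioi (a := a + 1) (r := 1) (by linarith) one_pos
    simp only [one_mul, add_sub_cancel_right, div_one, Real.one_rpow] at this
    rw [this]
  · filter_upwards [ae_restrict_mem measurableSet_Ioi] with τ hτ
    exact mul_nonneg (Real.rpow_nonneg (le_of_lt hτ) _) (Real.exp_pos _).le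

theorem hold {p η γ : ℝ} (hp : 1 < p) (hη : 0 < η) (G : ℝ → ℝ≥0∞)
    (hG : AEMeasurable G (volume.restrict (Ioi (0 : ℝ)))) :
    (∫⁻ τ in Ioi (0 : ℝ), ENNReal.ofReal (τ ^ γ * Real.exp (-τ)) * G τ) ^ p ≤
      ENNReal.ofReal (Real.Gamma η) ^ (p - 1) *
        ∫⁻ τ in Ioi (0 : ℝ), ENNReal.ofReal (τ ^ (p * (γ + 1) - 1 - (p - 1) * η) * Real.exp (-τ)) *
          G τ ^ p := by
  have hp0 : 0 < p := by linarith
  set q : ℝ := p / (p - 1) with hq
  have hq0 : 0 < q := div_pos hp0 (by linarith)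
  have hc : q.HolderConjugate p := by
    rw [Real.holderConjugate_iff]
    refine ⟨?_, ?_⟩
    · rw [hq, lt_div_iff₀ (by linarith)]; linarith
    · rw [hq]; field_simp; ring
  set β : ℝ := γ + (1 - η) * (p - 1) / p with hβ
  let f : ℝ → ℝ≥0∞ := fun τ => ENNReal.ofReal (τ ^ (η - 1) * Real.exp (-τ)) ^ (1 / q)
  let g : ℝ → ℝ≥0∞ := fun τ => ENNReal.ofReal (τ ^ β * Real.exp (-τ / p)) * G τ
  have hf : AEMeasurable f (volume.restrict (Ioi (0 : ℝ))) := by
    have : Measurable f := by fun_prop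
    exact this.aemeasurable
  have hg : AEMeasurable g (volume.restrict (Ioi (0 : ℝ))) := by
    have : Measurable fun τ : ℝ => ENNReal.ofReal (τ ^ β * Real.exp (-τ / p)) := by fun_prop
    exact this.aemeasurable.mul hG
  have hH := ENNReal.lintegral_mul_le_Lp_mul_Lq (volume.restrict (Ioi (0 : ℝ))) hc hf hg
  have e1 : ∫⁻ τ in Ioi (0 : ℝ), ENNReal.ofReal (τ ^ γ * Real.exp (-τ)) * G τ =
      ∫⁻ τ in Ioi (0 : ℝ), (f * g) τ := by
    refine setLIntegral_congr_fun measurableSet_Ioi fun τ hτ => ?_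
    have hτ' : (0 : ℝ) < τ := hτ
    simp only [f, g, Pi.mul_apply]
    rw [← mul_assoc, ENNReal.ofReal_rpow_of_nonneg (by positivity) (by positivity),
      ← ENNReal.ofReal_mul (by positivity)]
    congr 2
    rw [Real.mul_rpow (by positivity) (by positivity), ← Real.rpow_mul hτ'.le, ← Real.exp_mul,
      mul_mul_mul_comm, ← Real.rpow_add hτ', ← Real.exp_add]
    congr 2
    · rw [hq, hβ]; field_simp; ring
    · rw [hq]; field_simp; ring
  have e2 : ∫⁻ τ in Ioi (0 : ℝ), f τ ^ q = ENNReal.ofReal (Real.Gamma η) := by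
    have : ∀ τ : ℝ, f τ ^ q = ENNReal.ofReal (τ ^ (η - 1) * Real.exp (-τ)) := by
      intro τ
      simp only [f]
      rw [← ENNReal.rpow_mul, one_div, inv_mul_cancel₀ hq0.ne', ENNReal.rpow_one]
    simp_rw [this]
    rw [gam_lint (by linarith)]
    congr 2; ring
  have e3 : ∫⁻ τ in Ioi (0 : ℝ), g τ ^ p = ∫⁻ τ in Ioi (0 : ℝ),
      ENNReal.ofReal (τ ^ (p * (γ + 1) - 1 - (p - 1) * η) * Real.exp (-τ)) * G τ ^ p := by
    refine setLIntegral_congr_fun measurableSet_Ioi fun τ hτ => ?_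
    have hτ' : (0 : ℝ) < τ := hτ
    simp only [g]
    rw [ENNReal.mul_rpow_of_nonneg _ _ hp0.le, ENNReal.ofReal_rpow_of_nonneg (by positivity) hp0.le]
    congr 2
    rw [Real.mul_rpow (by positivity) (by positivity), ← Real.rpow_mul hτ'.le, ← Real.exp_mul]
    congr 2
    · rw [hβ]; field_simp; ring
    · field_simp
  rw [e1]
  calc (∫⁻ τ in Ioi (0 : ℝ), (f * g) τ) ^ p
      ≤ ((∫⁻ τ in Ioi (0 : ℝ), f τ ^ q) ^ (1 / q) * (∫⁻ τ in Ioi (0 : ℝ), g τ ^ p) ^ (1 / p)) ^ p :=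
        ENNReal.rpow_le_rpow hH hp0.le
    _ = _ := by
        rw [ENNReal.mul_rpow_of_nonneg _ _ hp0.le, ← ENNReal.rpow_mul, ← ENNReal.rpow_mul, e2, e3,
          one_div_mul_cancel hp0.ne', ENNReal.rpow_one]
        congr 2
        rw [hq]; field_simp

end Pool.Agent.U776.WV
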