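import Pool.Agent.U562.WV.Stm

/-! Project WV, package COS: the subordination formula. -/

open MeasureTheory Set Metric
open scoped ENNReal NNReal FourierTransform RealInnerProductSpace SchwartzMap

namespace Pool.Agent.U776.WV
open Pool.Agent.U562.WV

noncomputable def lam (ξ : E 3) : ℝ := 4 * Real.pi ^ 2 * ‖ξ‖ ^ 2

lemma lam_nonneg (ξ : E 3) : 0 ≤ lam ξ := by unfold lam; positivity

lemma ht_eq (a : ℝ) (ξ : E 3) : ht a ξ = ((Real.exp (-(a * lam ξ)) : ℝ) : ℂ) := by
  unfold ht lam; congr 2; ring_nf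

lemma int_exp {al r : ℝ} (hal : 0 < al) (hr : 0 < r) :
    IntegrableOn (fun τ : ℝ => τ ^ (al - 1) * Real.exp (-(r * τ))) (Ioi 0) := by
  have h := integrableOn_rpow_mul_exp_neg_mul_rpow (p := 1) (s := al - 1) (b := r)
    (by linarith) one_pos hr
  refine h.congr_fun (fun x _ => ?_) measurableSet_Ioi
  simp [Real.rpow_one]

/-- the kernel -/
noncomputable def kk (al L τ : ℝ) : ℝ :=
  τ ^ (al - 1) * (Real.exp (-τ) * (Real.exp (-(τ * L)) - Real.exp (-(2 * τ * L)))
    + (Real.exp (-τ) - Real.exp (-(2 * τ))) * Real.exp (-(2 * τ * L)))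

lemma kk_eq (al L τ : ℝ) : kk al L τ = τ ^ (al - 1) * Real.exp (-((1 + L) * τ)) -
    τ ^ (al - 1) * Real.exp (-((2 * (1 + L)) * τ)) := by
  unfold kk
  have h1 : Real.exp (-((1 + L) * τ)) = Real.exp (-τ) * Real.exp (-(τ * L)) := by
    rw [← Real.exp_add]; congr 1; ring
  have h2 : Real.exp (-((2 * (1 + L)) * τ)) = Real.exp (-(2 * τ)) * Real.exp (-(2 * τ * L)) := by
    rw [← Real.exp_add]; congr 1; ring
  rw [h1, h2]; ring

lemma kk_int {al L : ℝ} (hal : 0 < al) (hL : 0 ≤ L) :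
    ∫ τ in Ioi (0 : ℝ), kk al L τ = Real.Gamma al * (1 - 2 ^ (-al)) * (1 + L) ^ (-al) := by
  simp_rw [kk_eq]
  rw [integral_sub (int_exp hal (by linarith)) (int_exp hal (by linarith)),
    Real.integral_rpow_mul_exp_neg_mul_Ioi hal (by linarith),
    Real.integral_rpow_mul_exp_neg_mul_Ioi hal (by linarith)]
  have h1 : (0 : ℝ) ≤ 1 + L := by linarith
  rw [one_div, one_div, Real.inv_rpow h1, Real.inv_rpow (by linarith), Real.mul_rpow (by norm_num) h1,
    Real.rpow_neg (by norm_num), Real.rpow_neg h1, mul_inv]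
  ring

lemma kk_bd {al L τ : ℝ} (hL : 0 ≤ L) (hτ : 0 < τ) :
    |kk al L τ| ≤ τ ^ (al - 1) * Real.exp (-τ) := by
  rw [kk_eq, ← mul_sub, abs_mul, abs_of_nonneg (Real.rpow_nonneg hτ.le _)]
  refine mul_le_mul_of_nonneg_left ?_ (Real.rpow_nonneg hτ.le _)
  have h1 : Real.exp (-((2 * (1 + L)) * τ)) ≤ Real.exp (-((1 + L) * τ)) := by
    apply Real.exp_le_exp.2; nlinarith
  have h2 : Real.exp (-((1 + L) * τ)) ≤ Real.exp (-τ) := by
    apply Real.exp_le_exp.2; nlinarith
  rw [abs_of_nonneg (by linarith)]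
  have := Real.exp_pos (-((2 * (1 + L)) * τ))
  linarith

/-- The subordination formula. -/
theorem rep (Φ : E 3 → ℂ) (hΦ : Integrable Φ) {al : ℝ} (hal : 0 < al) :
    ((Real.Gamma al * (1 - 2 ^ (-al)) : ℝ) : ℂ) *
      ∫ ξ, (((1 + lam ξ) ^ (-al) : ℝ) : ℂ) * Φ ξ =
    ∫ τ in Ioi (0 : ℝ), ((τ ^ (al - 1) : ℝ) : ℂ) *
      (((Real.exp (-τ) : ℝ) : ℂ) * (∫ ξ, (ht τ ξ - ht (2 * τ) ξ) * Φ ξ) +
        ((Real.exp (-τ) - Real.exp (-(2 * τ)) : ℝ) : ℂ) * ∫ ξ, ht (2 * τ) ξ * Φ ξ) := by
  have hlc : Continuous lam := by unfold lam; fun_prop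
  have hbdd : ∀ a : ℝ, 0 ≤ a → Integrable (fun ξ => ht a ξ * Φ ξ) := by
    intro a ha
    refine hΦ.bdd_mul (c := 1) ?_ ?_
    · have : Continuous (ht a) := by
        unfold ht; fun_prop
      exact this.aestronglyMeasurable
    · filter_upwards with ξ
      rw [ht_eq, Complex.norm_real, Real.norm_eq_abs, abs_of_pos (Real.exp_pos _)]
      have := mul_nonneg ha (lam_nonneg ξ)
      exact Real.exp_le_one_iff.2 (by linarith)
  have e1 : ∀ τ ∈ Ioi (0 : ℝ), ((τ ^ (al - 1) : ℝ) : ℂ) *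
      (((Real.exp (-τ) : ℝ) : ℂ) * (∫ ξ, (ht τ ξ - ht (2 * τ) ξ) * Φ ξ) +
        ((Real.exp (-τ) - Real.exp (-(2 * τ)) : ℝ) : ℂ) * ∫ ξ, ht (2 * τ) ξ * Φ ξ) =
      ∫ ξ, ((kk al (lam ξ) τ : ℝ) : ℂ) * Φ ξ := by
    intro τ hτ
    have hτ' : (0 : ℝ) ≤ τ := le_of_lt hτ
    rw [← integral_const_mul, ← integral_const_mul, ← integral_add, ← integral_const_mul]
    · refine integral_congr_ae (Filter.Eventually.of_forall fun ξ => ?_)
      simp only [ht_eq, kk]
      push_cast
      ring_nf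
    · have := ((hbdd τ hτ').sub (hbdd (2 * τ) (by linarith)))
      refine (Integrable.const_mul ?_ _)
      refine this.congr (Filter.Eventually.of_forall fun ξ => ?_)
      simp only [Pi.sub_apply]; ring
    · exact (hbdd (2 * τ) (by linarith)).const_mul _
  rw [setIntegral_congr_fun measurableSet_Ioi e1]
  have hF : Integrable (Function.uncurry fun (τ : ℝ) (ξ : E 3) => ((kk al (lam ξ) τ : ℝ) : ℂ) * Φ ξ)
      ((volume.restrict (Ioi (0 : ℝ))).prod volume) := by
    have hg : Integrable (fun τ : ℝ => τ ^ (al - 1) * Real.exp (-τ)) (volume.restrict (Ioi (0 : ℝ))) := by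
      have := int_exp hal (one_pos)
      simp only [one_mul] at this
      exact this
    have hm := hg.norm.mul_prod hΦ.norm
    refine Integrable.mono' hm ?_ ?_
    · refine AEStronglyMeasurable.mul ?_ ?_
      · have : Measurable (fun z : ℝ × E 3 => kk al (lam z.2) z.1) := by
          unfold kk
          have : Measurable lam := hlc.measurable
          fun_prop
        exact (Complex.measurable_ofReal.comp this).aestronglyMeasurable
      · exact hΦ.aestronglyMeasurable.comp_snd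
    · have : ∀ᵐ z : ℝ × E 3 ∂((volume.restrict (Ioi (0 : ℝ))).prod volume), z.1 ∈ Ioi (0 : ℝ) := by
        have h := (Measure.quasiMeasurePreserving_fst (μ := volume.restrict (Ioi (0 : ℝ)))
          (ν := (volume : Measure (E 3)))).ae (ae_restrict_mem measurableSet_Ioi)
        exact h
      filter_upwards [this] with z hz
      rw [Function.uncurry_def]
      simp only [norm_mul, Complex.norm_real]
      refine mul_le_mul_of_nonneg_right ?_ (norm_nonneg _)
      rw [Real.norm_eq_abs]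
      refine (kk_bd (lam_nonneg _) hz).trans ?_
      rw [Real.norm_eq_abs, Real.norm_eq_abs, ← abs_mul]
      exact le_abs_self _
  rw [integral_integral_swap hF, ← integral_const_mul]
  refine integral_congr_ae (Filter.Eventually.of_forall fun ξ => ?_)
  simp only
  rw [integral_mul_const, integral_complex_ofReal, kk_int hal (lam_nonneg ξ)]
  push_cast
  ring

end Pool.Agent.U776.WV
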